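import Pool.Agent.H51.FT.AttM

/-!
Section 6.4 of the local analysis: the classes of `M` with `C_M(F_M)` not contained in `F_M`.
-/

namespace H1FT

open Subgroup H51.FT H57.FT
open scoped Pointwise

variable {G : Type*} [Group G]

/-- `d` is an element of prime order of `C_M(F_M)` outside `F_M` -/
structure NE (M : Subgroup G) (d : G) : Prop where
  mem : d ∈ M
  cen : ∀ x ∈ FM M, d * x = x * d
  nin : d ∉ FM M
  pri : (orderOf d).Prime

/-- the set of the conjugates of the elements `d f`, `f ∈ F_M`, `NE M d` -/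
def NB (M : Subgroup G) : Set G :=
  {g | ∃ d, NE M d ∧ ∃ f ∈ FM M, ∃ k : G, g = k * (d * f) * k⁻¹}

theorem NE.conj {M : Subgroup G} {d : G} (h : NE M d) (g : G) :
    NE (MulAut.conj g • M) (g * d * g⁻¹) := by
  have e0 : ∀ (K : Subgroup G) (y : G), y ∈ MulAut.conj g • K ↔ g⁻¹ * y * g ∈ K := by
    intro K y
    rw [Subgroup.mem_pointwise_smul_iff_inv_smul_mem, ← map_inv]
    simp
  have e1 : g⁻¹ * (g * d * g⁻¹) * g = d := by group
  refine ⟨?_, ?_, ?_, ?_⟩
  · rw [e0, e1]; exact h.mem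
  · intro x hx
    rw [← conj_FM, e0] at hx
    have h1 := h.cen _ hx
    calc g * d * g⁻¹ * x = g * (d * (g⁻¹ * x * g)) * g⁻¹ := by group
      _ = g * (g⁻¹ * x * g * d) * g⁻¹ := by rw [h1]
      _ = x * (g * d * g⁻¹) := by group
  · rw [← conj_FM, e0, e1]; exact h.nin
  · rw [IsKp.orderOf_conj]; exact h.pri

theorem NB_conj_le (M : Subgroup G) (g : G) : NB M ⊆ NB (MulAut.conj g • M) := by
  rintro _ ⟨d, hd, f, hf, k, rfl⟩
  refine ⟨g * d * g⁻¹, hd.conj g, g * f * g⁻¹, ?_, k * g⁻¹, by group⟩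
  rw [← conj_FM]
  exact Subgroup.smul_mem_pointwise_smul f (MulAut.conj g) (FM M) hf

/-- `NB M` depends only on the conjugacy class of `M` -/
theorem NB_conj (M : Subgroup G) (g : G) : NB (MulAut.conj g • M) = NB M := by
  apply Set.Subset.antisymm _ (NB_conj_le M g)
  have := NB_conj_le (MulAut.conj g • M) g⁻¹
  rwa [map_inv, inv_smul_smul] at this

/-- `NB M` is closed under conjugation -/
theorem NB_closed {M : Subgroup G} {x : G} (hx : x ∈ NB M) (g : G) : g * x * g⁻¹ ∈ NB M := by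
  obtain ⟨d, hd, f, hf, k, rfl⟩ := hx
  exact ⟨d, hd, f, hf, g * k, by group⟩

variable [Finite G] [IsSimpleGroup G]
variable (hG : _root_.commutator G = ⊤) (hodd : Odd (Nat.card G))
  (hNA : ∀ H : Subgroup G, H < ⊤ → Group.IsNilpotent (_root_.commutator H))

include hG hNA in
theorem normalizer_lt_top {p : ℕ} [Fact p.Prime] (P : Sylow p G) (hP : (P : Subgroup G) ≠ ⊥) :
    normalizer (P : Set G) < ⊤ :=
  (isCoatom_normalizer (sylC hG hNA) hG hNA P hP).lt_top

omit [Finite G] [IsSimpleGroup G] in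
theorem sylow_ne_bot {s : ℕ} (S : Sylow s G) {M : Subgroup G} (hM : M < ⊤)
    (h : normalizer (S : Set G) = M) : (S : Subgroup G) ≠ ⊥ := by
  intro h0
  have h1 : normalizer ((S : Subgroup G) : Set G) = M := h
  rw [h0] at h1
  apply hM.ne
  rw [← h1]
  exact normalizer_eq_top_iff.mpr (inferInstance : (⊥ : Subgroup G).Normal)

include hG hNA in
/-- if `M = N_G(P)` normalises a Sylow subgroup `T ≠ 1` then `M = N_G(T)` -/
theorem normalizer_eq {p : ℕ} [Fact p.Prime] (P : Sylow p G) (hP : (P : Subgroup G) ≠ ⊥) {t : ℕ}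
    [Fact t.Prime] (T : Sylow t G) (hT : (T : Subgroup G) ≠ ⊥)
    (h : normalizer (P : Set G) ≤ normalizer (T : Set G)) :
    normalizer (T : Set G) = normalizer (P : Set G) :=
  eq_normalizer_of_le (sylC hG hNA) hG hNA P hP (normalizer_lt_top hG hNA T hT) h

include hG hodd hNA in
/-- `H(d) = F_M` for `NE M d` -/
theorem NE.spec {M : Subgroup G} {p : ℕ} [Fact p.Prime] (P : Sylow p G)
    (hP : (P : Subgroup G) ≠ ⊥) (hPM : normalizer (P : Set G) = M) {d : G} (hd : NE M d) :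
    HH d = FM M ∧ (∃ S : Sylow (orderOf d) G, d ∈ S) ∧ ¬ orderOf d ∣ Nat.card (FM M) := by
  have hsp : Fact (orderOf d).Prime := ⟨hd.pri⟩
  have hMt : M < ⊤ := hPM ▸ normalizer_lt_top hG hNA P hP
  have hd1 : d ≠ 1 := by
    rintro rfl
    have := hd.pri
    rw [orderOf_one] at this
    exact Nat.not_prime_one this
  have hz : IsPGroup (orderOf d) (zpowers d) := by
    apply IsPGroup.of_card (n := 1)
    rw [Nat.card_zpowers, pow_one]
  obtain ⟨S, hS⟩ := hz.exists_le_sylow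
  have hdS : d ∈ S := hS (mem_zpowers d)
  have hsig : ∀ T : Sylow (orderOf d) G, ¬ M ≤ normalizer (T : Set G) := by
    intro T hT
    have h1 : d ∈ T := by
      apply mem_of_mem_normalizer T (k := 1) (hT hd.mem)
      rw [pow_one]; exact pow_orderOf_eq_one d
    have hTb : (T : Subgroup G) ≠ ⊥ := by
      intro h0
      have : d ∈ (⊥ : Subgroup G) := h0 ▸ h1
      exact hd1 (mem_bot.mp this)
    have h2 : normalizer (T : Set G) = M := by
      rw [← hPM]
      exact normalizer_eq hG hNA P hP T hTb (hPM ▸ hT)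
    exact hd.nin (le_FM' hd.pri T h2 h1)
  have four : ∀ (t : ℕ) (_ : t.Prime) (T : Sylow t G), normalizer (T : Set G) = M →
      Bad S d ∧ centralizer ({d} : Set G) ≤ M ∧ (T : Subgroup G) ≤ HH d ∧
      ∀ q : ℕ, q.Prime → q ∣ Nat.card (HH d) →
        ∃ T : Sylow q G, M ≤ normalizer (T : Set G) := by
    intro t ht T hT
    have htf : Fact t.Prime := ⟨ht⟩
    have hTb := sylow_ne_bot T hMt hT
    have hts : t ≠ orderOf d := by
      rintro rfl
      exact hsig T hT.ge
    have := Pool.Agent.H3.FT.four_five hG hodd hNA T hTb hts S hdS rfl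
      (fun a ha => (hd.cen a (le_FM' ht T hT ha)).symm) (fun T' => by rw [hT]; exact hsig T')
    rw [hT] at this
    exact this
  obtain ⟨-, hcM, -, hq⟩ := four p (Fact.out) P hPM
  have hle : FM M ≤ HH d := by
    unfold FM
    rw [closure_le]
    rintro x ⟨t, ht, T, hx, hT⟩
    exact (four t ht T hT).2.2.1 hx
  have hge : HH d ≤ FM M := by
    intro h hh
    have hhM : h ∈ M := hcM (HH_le d hh)
    have hnor : ((FM M).subgroupOf M).Normal := by
      rw [normal_subgroupOf_iff_le_normalizer (FM_le M)]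
      exact FM_normal M
    have h1 : h ^ ((FM M).subgroupOf M).index ∈ FM M := by
      have := ((FM M).subgroupOf M).pow_index_mem (⟨h, hhM⟩ : M)
      exact this
    have hcop : (((FM M).subgroupOf M).index).Coprime (orderOf h) := by
      rw [Nat.coprime_iff_gcd_eq_one]
      by_contra hne
      obtain ⟨q, hqp, hqd⟩ := Nat.exists_prime_and_dvd hne
      have hqf : Fact q.Prime := ⟨hqp⟩
      have h2 : q ∣ Nat.card (HH d) := by
        have h3 := orderOf_dvd_natCard (⟨h, hh⟩ : HH d)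
        rw [Subgroup.orderOf_mk] at h3
        exact (hqd.trans (Nat.gcd_dvd_right _ _)).trans h3
      obtain ⟨T, hT⟩ := hq q hqp h2
      have hTb : (T : Subgroup G) ≠ ⊥ := by
        intro h0
        have h3 : q ∣ Nat.card G := h2.trans (Subgroup.card_subgroup_dvd_card _)
        have h4 := T.dvd_card_of_dvd_card h3
        have h5 : Nat.card (T : Subgroup G) = 1 := by rw [h0]; exact Subgroup.card_bot
        change q ∣ Nat.card (T : Subgroup G) at h4
        rw [h5] at h4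
        exact hqp.one_lt.ne' (Nat.dvd_one.mp h4)
      have hTM : normalizer (T : Set G) = M := by
        rw [← hPM]
        exact normalizer_eq hG hNA P hP T hTb (hPM ▸ hT)
      have h6 : (T : Subgroup G) ≤ FM M := le_FM' hqp T hTM
      have h7 : ((FM M).subgroupOf M).index ∣ (FM M).index := relIndex_dvd_index_of_le (FM_le M)
      exact T.not_dvd_index (((hqd.trans (Nat.gcd_dvd_left _ _)).trans h7).trans
        (index_dvd_of_le h6))
    obtain ⟨m, hm⟩ := exists_pow_eq_self_of_coprime hcop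
    rw [← hm]
    exact pow_mem h1 m
  refine ⟨le_antisymm hge hle, ⟨S, hdS⟩, ?_⟩
  intro hdvd
  obtain ⟨w, hw⟩ := exists_prime_orderOf_dvd_card' (G := FM M) (orderOf d) hdvd
  have hw' : orderOf (w : G) = orderOf d := by rw [orderOf_submonoid]; exact hw
  have hw1 : (w : G) ≠ 1 := by
    intro h1
    rw [h1, orderOf_one] at hw'
    exact hd.pri.one_lt.ne hw'
  have hk : (w : G) ^ (orderOf d) ^ 1 = 1 := by
    rw [pow_one, ← hw']; exact pow_orderOf_eq_one _
  obtain ⟨T, -, hT⟩ := FM_elt hG hNA hMt hd.pri w.2 hw1 hk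
  exact hsig T hT.ge

omit [Finite G] [IsSimpleGroup G] in
theorem FM_ne_bot {M : Subgroup G} {p : ℕ} [hp : Fact p.Prime] (P : Sylow p G)
    (hP : (P : Subgroup G) ≠ ⊥) (hPM : normalizer (P : Set G) = M) : FM M ≠ ⊥ := by
  intro h
  apply hP
  rw [eq_bot_iff, ← h]
  exact le_FM' hp.out P hPM

include hG hNA in
/-- `N_G(F_M) = M` -/
theorem normalizer_FM {M : Subgroup G} {p : ℕ} [hp : Fact p.Prime] (P : Sylow p G)
    (hP : (P : Subgroup G) ≠ ⊥) (hPM : normalizer (P : Set G) = M) :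
    normalizer (FM M : Set G) = M := by
  have hMt : M < ⊤ := hPM ▸ normalizer_lt_top hG hNA P hP
  have h1 := normalizer_eq_of_inv (sylC hG hNA) hG hNA P (FM_ne_bot P hP hPM)
    (lt_of_le_of_lt (FM_le M) hMt).ne hP (hPM ▸ FM_normal M)
  rw [h1, hPM]

include hG hodd hNA in
/-- conjugation between two elements of type `NE M` is in `M` -/
theorem NE.conj_mem {M : Subgroup G} {p : ℕ} [Fact p.Prime] (P : Sylow p G)
    (hP : (P : Subgroup G) ≠ ⊥) (hPM : normalizer (P : Set G) = M) {d x : G} (hd : NE M d)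
    (he : NE M (x * d * x⁻¹)) : x ∈ M := by
  have h1 := (hd.spec hG hodd hNA P hP hPM).1
  have h2 := (he.spec hG hodd hNA P hP hPM).1
  rw [HH_conj, h1] at h2
  rw [← normalizer_FM hG hNA P hP hPM, mem_normalizer_iff]
  intro y
  constructor
  · intro hy
    have h3 := Subgroup.smul_mem_pointwise_smul y (MulAut.conj x) (FM M) hy
    rw [h2] at h3
    exact h3
  · intro hy
    have h3 : MulAut.conj x • y ∈ MulAut.conj x • FM M := by rw [h2]; exact hy
    exact Subgroup.smul_mem_pointwise_smul_iff.mp h3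

omit [Finite G] [IsSimpleGroup G] in
theorem NE.of_mem_zpowers {M : Subgroup G} {d e : G} (hd : NE M d) (he : e ∈ zpowers d)
    (he1 : e ≠ 1) : NE M e ∧ orderOf e = orderOf d := by
  have ho : orderOf e = orderOf d := by
    have h1 : orderOf e ∣ orderOf d := orderOf_dvd_of_mem_zpowers he
    rcases (Nat.dvd_prime hd.pri).mp h1 with h2 | h2
    · exact absurd (orderOf_eq_one_iff.mp h2) he1
    · exact h2
  obtain ⟨k, rfl⟩ := mem_zpowers_iff.mp he
  refine ⟨⟨M.zpow_mem hd.mem k, ?_, ?_, ?_⟩, ho⟩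
  · intro x hx
    exact (Commute.zpow_left (show Commute d x from hd.cen x hx) k).eq
  · intro h
    apply hd.nin
    have hfin : Finite (zpowers d) := by
      have : IsOfFinOrder d := by
        rw [← orderOf_pos_iff]; exact hd.pri.pos
      exact this.finite_zpowers
    have h3 : zpowers (d ^ k) = zpowers d := by
      apply Subgroup.eq_of_le_of_card_ge
      · rw [zpowers_le]; exact he
      · rw [Nat.card_zpowers, Nat.card_zpowers, ho]
    have h4 : d ∈ zpowers (d ^ k) := h3 ▸ mem_zpowers d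
    exact (zpowers_le.mpr h) h4
  · rw [ho]; exact hd.pri

include hG hodd hNA in
/-- the sets `NB M` and `NB N` are disjoint when `M`, `N` are not conjugate -/
theorem NB_disj {M N : Subgroup G} {p q : ℕ} [Fact p.Prime] [Fact q.Prime] (P : Sylow p G)
    (hP : (P : Subgroup G) ≠ ⊥) (hPM : normalizer (P : Set G) = M) (Q : Sylow q G)
    (hQ : (Q : Subgroup G) ≠ ⊥) (hQN : normalizer (Q : Set G) = N) (h : NC M N) {g : G}
    (h1 : g ∈ NB M) (h2 : g ∈ NB N) : False := by
  obtain ⟨d, hd, f, hf, k, rfl⟩ := h1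
  obtain ⟨d', hd', f', hf', k', hk'⟩ := h2
  -- replace `N` by a conjugate
  obtain ⟨c, hc⟩ : ∃ c, c = k⁻¹ * k' := ⟨_, rfl⟩
  have hN'eq : MulAut.conj c • N = normalizer ((c • Q : Sylow q G) : Set G) := by
    rw [← hQN, sylow_normalizer_smul]
  have hNC : NC M (MulAut.conj c • N) := by
    intro g hg
    apply h (c⁻¹ * g)
    rw [map_mul, mul_smul, hg, map_inv, inv_smul_smul]
  have hd2 := hd'.conj c
  have hf2 : c * f' * c⁻¹ ∈ FM (MulAut.conj c • N) := by
    rw [← conj_FM]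
    exact Subgroup.smul_mem_pointwise_smul f' (MulAut.conj c) (FM N) hf'
  have heq : d * f = (c * d' * c⁻¹) * (c * f' * c⁻¹) := by
    have e : (c * d' * c⁻¹) * (c * f' * c⁻¹) = k⁻¹ * (k' * (d' * f') * k'⁻¹) * k := by
      rw [hc]; group
    rw [e, ← hk']; group
  have hQ' : ((c • Q : Sylow q G) : Subgroup G) ≠ ⊥ := by
    apply sylow_ne_bot _ _ rfl
    rw [← hN'eq]
    rw [lt_top_iff_ne_top]
    intro htop
    have hNt : N < ⊤ := hQN ▸ normalizer_lt_top hG hNA Q hQ
    apply hNt.ne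
    have h5 : MulAut.conj c⁻¹ • (MulAut.conj c • N) = MulAut.conj c⁻¹ • ⊤ := by rw [htop]
    rw [map_inv, inv_smul_smul, ← map_inv] at h5
    rw [h5]
    exact Subgroup.conj_smul_eq_self_of_mem (mem_top _)
  generalize hN2 : MulAut.conj c • N = N2 at *
  generalize hee : c * d' * c⁻¹ = e at *
  generalize hff : c * f' * c⁻¹ = u at *
  obtain ⟨h1, ⟨S, hS⟩, h3⟩ := hd.spec hG hodd hNA P hP hPM
  obtain ⟨h1', ⟨S', hS'⟩, h3'⟩ := hd2.spec hG hodd hNA (c • Q) hQ' hN'eq.symm
  have hMt : M < ⊤ := hPM ▸ normalizer_lt_top hG hNA P hP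
  have hNt : N2 < ⊤ := hN'eq ▸ normalizer_lt_top hG hNA (c • Q) hQ'
  have hcop := FM_coprime hG hNA hMt hNt hNC
  have hinf : ∀ y, y ∈ FM M → y ∈ FM N2 → y = 1 := by
    intro y hy hy'
    have := disjoint_of_coprime_natCard hcop
    have h5 : y ∈ FM M ⊓ FM N2 := ⟨hy, hy'⟩
    rw [this.eq_bot, mem_bot] at h5
    exact h5
  have hcf : Commute d f := hd.cen f hf
  have hcu : Commute e u := hd2.cen u hf2
  have hsp : (orderOf d).Prime := hd.pri
  have htp : (orderOf e).Prime := hd2.pri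
  have hsf : Fact (orderOf d).Prime := ⟨hsp⟩
  have htf : Fact (orderOf e).Prime := ⟨htp⟩
  have hds : d ^ orderOf d = 1 := pow_orderOf_eq_one d
  have het : e ^ orderOf e = 1 := pow_orderOf_eq_one e
  have e1 : (d * f) ^ (orderOf d * orderOf e) = f ^ (orderOf d * orderOf e) := by
    rw [hcf.mul_pow, pow_mul d, hds, one_pow, one_mul]
  have e2 : (e * u) ^ (orderOf d * orderOf e) = u ^ (orderOf d * orderOf e) := by
    rw [hcu.mul_pow, mul_comm (orderOf d), pow_mul e, het, one_pow, one_mul]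
  have e3 : f ^ (orderOf d * orderOf e) = u ^ (orderOf d * orderOf e) := by
    rw [← e1, ← e2, heq]
  have e4 : f ^ (orderOf d * orderOf e) = 1 :=
    hinf _ (pow_mem hf _) (by rw [e3]; exact pow_mem hf2 _)
  have e5 : u ^ (orderOf d * orderOf e) = 1 := by rw [← e3]; exact e4
  have of1 : orderOf f ∣ Nat.card (FM M) := by
    have := orderOf_dvd_natCard (⟨f, hf⟩ : FM M)
    rwa [Subgroup.orderOf_mk] at this
  have ou1 : orderOf u ∣ Nat.card (FM N2) := by
    have := orderOf_dvd_natCard (⟨u, hf2⟩ : FM N2)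
    rwa [Subgroup.orderOf_mk] at this
  have cf : (orderOf f).Coprime (orderOf d) :=
    ((Nat.Prime.coprime_iff_not_dvd hsp).mpr (fun h => h3 (h.trans of1))).symm
  have cu : (orderOf u).Coprime (orderOf e) :=
    ((Nat.Prime.coprime_iff_not_dvd htp).mpr (fun h => h3' (h.trans ou1))).symm
  have f1 : orderOf f ∣ orderOf e := cf.dvd_of_dvd_mul_left (orderOf_dvd_of_pow_eq_one e4)
  have u1 : orderOf u ∣ orderOf d := cu.dvd_of_dvd_mul_right (orderOf_dvd_of_pow_eq_one e5)
  have f2 : f ^ orderOf e = 1 := orderOf_dvd_iff_pow_eq_one.mp f1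
  have u2 : u ^ orderOf d = 1 := orderOf_dvd_iff_pow_eq_one.mp u1
  by_cases hst : orderOf d = orderOf e
  · have hf1 : f = 1 := by
      rw [← hst] at f1
      exact orderOf_eq_one_iff.mp (Nat.eq_one_of_dvd_coprimes cf dvd_rfl f1)
    have hu1 : u = 1 := by
      rw [hst] at u1
      exact orderOf_eq_one_iff.mp (Nat.eq_one_of_dvd_coprimes cu dvd_rfl u1)
    rw [hf1, hu1, mul_one, mul_one] at heq
    rw [← heq, h1] at h1'
    apply FM_ne_bot P hP hPM
    rw [eq_bot_iff]
    intro y hy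
    rw [mem_bot]
    exact hinf y hy (h1' ▸ hy)
  · have k1 : (d * f) ^ orderOf e = d ^ orderOf e := by rw [hcf.mul_pow, f2, mul_one]
    have k2 : (e * u) ^ orderOf e = u ^ orderOf e := by rw [hcu.mul_pow, het, one_mul]
    have k3 : d ^ orderOf e ∈ FM N2 := by
      rw [← k1, heq, k2]; exact pow_mem hf2 _
    have k4 : (d * f) ^ orderOf d = f ^ orderOf d := by rw [hcf.mul_pow, hds, one_mul]
    have k5 : (e * u) ^ orderOf d = e ^ orderOf d := by rw [hcu.mul_pow, u2, mul_one]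
    have k6 : e ^ orderOf d ∈ FM M := by
      rw [← k5, ← heq, k4]; exact pow_mem hf _
    have cst : (orderOf e).Coprime (orderOf d) :=
      (Nat.coprime_primes htp hsp).mpr (fun h => hst h.symm)
    obtain ⟨m, hm⟩ := exists_pow_eq_self_of_coprime cst
    obtain ⟨n, hn⟩ := exists_pow_eq_self_of_coprime cst.symm
    have m1 : d ∈ FM N2 := by rw [← hm]; exact pow_mem k3 m
    have m2 : e ∈ FM M := by rw [← hn]; exact pow_mem k6 n
    exact Pool.Agent.H3.FT.four_four' hG hodd hNA S hst S' hS rfl hS' rfl (h1 ▸ m2) (h1' ▸ m1)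

omit [IsSimpleGroup G] in
/-- if `C_M(F_M)` is not contained in `F_M`, `F_M` a Hall subgroup with the usual property, then
there is an element of type `NE M` -/
theorem exists_NE {M : Subgroup G}
    (h : ¬ ∀ m ∈ M, (∀ x ∈ FM M, m * x = x * m) → m ∈ FM M)
    (hHall : (Nat.card (FM M)).Coprime (FM M).index) : ∃ d, NE M d := by
  push Not at h
  obtain ⟨m, hm, hmc, hmn⟩ := h
  -- the group `C_M(F_M)`
  have hpow : ∀ j : ℕ, m ^ j ∈ M ∧ (∀ x ∈ FM M, m ^ j * x = x * m ^ j) := fun j =>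
    ⟨pow_mem hm j, fun x hx => (Commute.pow_left (show Commute m x from hmc x hx) j).eq⟩
  -- the order of `m` modulo `F_M`
  have hnor : ((FM M).subgroupOf M).Normal := by
    rw [normal_subgroupOf_iff_le_normalizer (FM_le M)]
    exact FM_normal M
  -- `m ^ |F_M|`
  have h1 : m ^ Nat.card (FM M) ∉ FM M := by
    intro h2
    apply hmn
    have h3 : m ^ ((FM M).subgroupOf M).index ∈ FM M :=
      ((FM M).subgroupOf M).pow_index_mem (⟨m, hm⟩ : M)
    have h4 : (Nat.card (FM M)).Coprime ((FM M).subgroupOf M).index :=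
      Nat.Coprime.coprime_dvd_right (relIndex_dvd_index_of_le (FM_le M)) hHall
    have h5 : (m : G) ^ (Nat.gcd (Nat.card (FM M)) ((FM M).subgroupOf M).index : ℤ) ∈ FM M := by
      rw [Nat.gcd_eq_gcd_ab, zpow_add, zpow_mul, zpow_mul, zpow_natCast, zpow_natCast]
      exact mul_mem (zpow_mem h2 _) (zpow_mem h3 _)
    rw [h4.gcd_eq_one] at h5
    simpa using h5
  set w := m ^ Nat.card (FM M) with hw
  have hw1 : w ≠ 1 := fun h2 => h1 (h2 ▸ one_mem _)
  have hp := minFac_prime hw1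
  have hwi : w ^ ((FM M).subgroupOf M).index = 1 := by
    have h2 : Nat.card ((FM M).subgroupOf M) = Nat.card (FM M) :=
      Nat.card_congr (subgroupOfEquivOfLe (FM_le M)).toEquiv
    have h3 := ((FM M).subgroupOf M).card_mul_index
    rw [h2] at h3
    rw [hw, ← pow_mul, h3]
    exact congrArg Subtype.val (pow_card_eq_one' (x := (⟨m, hm⟩ : M)))
  have hwc : (orderOf w).Coprime (Nat.card (FM M)) :=
    (Nat.Coprime.coprime_dvd_right ((orderOf_dvd_of_pow_eq_one hwi).trans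
      (relIndex_dvd_index_of_le (FM_le M))) hHall).symm
  have hxe : xp w = m ^ (Nat.card (FM M) * (orderOf w / (orderOf w).minFac)) := by
    unfold xp
    rw [pow_mul]
  refine ⟨xp w, ⟨?_, ?_, ?_, ?_⟩⟩
  · rw [hxe]; exact (hpow _).1
  · rw [hxe]; exact (hpow _).2
  · intro h2
    have h3 := orderOf_dvd_natCard (⟨xp w, h2⟩ : FM M)
    rw [Subgroup.orderOf_mk] at h3
    have h4 : orderOf (xp w) ∣ orderOf w := orderOf_pow_dvd _
    exact xp_ne_one hw1 (orderOf_eq_one_iff.mp (Nat.eq_one_of_dvd_coprimes hwc h4 h3))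
  · rw [orderOf_xp]; exact hp

include hG hodd hNA in
/-- the number of elements of `NB M` -/
theorem NB_card {M : Subgroup G} {p : ℕ} [Fact p.Prime] (P : Sylow p G)
    (hP : (P : Subgroup G) ≠ ⊥) (hPM : normalizer (P : Set G) = M) {d : G} (hd : NE M d) :
    (orderOf d - 1) * Nat.card (FM M) * Nat.card G ≤ Nat.card (NB M) * Nat.card M := by
  classical
  have hc : ∀ c : NB M, ∃ k : G, ∃ e f : G, NE M e ∧ f ∈ FM M ∧ (c : G) = k * (e * f) * k⁻¹ := by
    rintro ⟨c, e, he, f, hf, k, hk⟩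
    exact ⟨k, e, f, he, hf, hk⟩
  choose κ ε φ hε hφ hκ using hc
  have hcopE : ∀ e, NE M e → (orderOf e).Coprime (Nat.card (FM M)) := fun e he =>
    (Nat.Prime.coprime_iff_not_dvd he.pri).mpr (he.spec hG hodd hNA P hP hPM).2.2
  have hFc : ∀ y ∈ FM M, y ^ Nat.card (FM M) = 1 := fun y hy =>
    congrArg Subtype.val (pow_card_eq_one' (x := (⟨y, hy⟩ : FM M)))
  have hdis : ∀ e, NE M e → ∀ y ∈ zpowers e, y ∈ FM M → y = 1 := by
    intro e he y hy hy'
    by_contra hy1
    exact (he.of_mem_zpowers hy hy1).1.nin hy'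
  -- the elements `≠ 1` of `⟨d⟩`
  have hcardE : Nat.card {e : zpowers d // e ≠ 1} = orderOf d - 1 := by
    have h1 : Nat.card {e : zpowers d // e ≠ 1} + 1 = Nat.card (zpowers d) := by
      have h2 := Nat.card_congr (Equiv.sumCompl (fun e : zpowers d => e = 1))
      rw [Nat.card_sum] at h2
      have h3 : Nat.card {e : zpowers d // e = 1} = 1 := Nat.card_unique
      rw [h3] at h2
      rw [← h2, add_comm]
    rw [Nat.card_zpowers] at h1
    omega
  rw [← hcardE, ← Nat.card_prod, ← Nat.card_prod, ← Nat.card_prod]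
  have hmem : ∀ (a : ({e : zpowers d // e ≠ 1} × FM M) × G),
      a.2 * (((a.1.1 : zpowers d) : G) * (a.1.2 : G)) * a.2⁻¹ ∈ NB M := by
    rintro ⟨⟨⟨⟨e, he⟩, he1⟩, ⟨f, hf⟩⟩, k⟩
    have he1' : e ≠ 1 := fun h => he1 (Subtype.ext h)
    exact ⟨e, (hd.of_mem_zpowers he he1').1, f, hf, k, rfl⟩
  have hinM : ∀ (a : ({e : zpowers d // e ≠ 1} × FM M) × G),
      (κ ⟨_, hmem a⟩)⁻¹ * a.2 ∈ M := by
    rintro ⟨⟨⟨⟨e, he⟩, he1⟩, ⟨f, hf⟩⟩, k⟩
    have he1' : e ≠ 1 := fun h => he1 (Subtype.ext h)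
    have hE := (hd.of_mem_zpowers he he1').1
    set c : NB M := ⟨_, hmem ((⟨⟨e, he⟩, he1⟩, ⟨f, hf⟩), k)⟩ with hcdef
    have h1 : (c : G) = k * (e * f) * k⁻¹ := rfl
    have h2 := hκ c
    have h3 : (κ c)⁻¹ * k * (e * f) * ((κ c)⁻¹ * k)⁻¹ = ε c * φ c := by
      have h4 : k * (e * f) * k⁻¹ = κ c * (ε c * φ c) * (κ c)⁻¹ := by rw [← h1]; exact h2
      calc (κ c)⁻¹ * k * (e * f) * ((κ c)⁻¹ * k)⁻¹
          = (κ c)⁻¹ * (k * (e * f) * k⁻¹) * κ c := by group
        _ = (κ c)⁻¹ * (κ c * (ε c * φ c) * (κ c)⁻¹) * κ c := by rw [h4]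
        _ = _ := by group
    have hA : (orderOf e * orderOf (ε c)).Coprime (Nat.card (FM M)) :=
      Nat.Coprime.mul_left (hcopE e hE) (hcopE _ (hε c))
    have h5 := (crt_sep (A := orderOf e * orderOf (ε c)) (B := Nat.card (FM M)) hA
      (x := e) (r := f) (x' := ε c) (r' := φ c) (g := (κ c)⁻¹ * k)
      (by rw [pow_mul, pow_orderOf_eq_one, one_pow]) (hFc f hf)
      (by rw [mul_comm, pow_mul, pow_orderOf_eq_one, one_pow]) (hFc _ (hφ c))
      (hE.cen f hf).symm ((hε c).cen _ (hφ c)).symm h3).1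
    exact NE.conj_mem hG hodd hNA P hP hPM hE (h5 ▸ hε c)
  refine Nat.card_le_card_of_injective (fun a : ({e : zpowers d // e ≠ 1} × FM M) × G =>
    ((⟨_, hmem a⟩, ⟨_, hinM a⟩) : NB M × M)) ?_
  rintro ⟨⟨⟨⟨e, he⟩, he1⟩, ⟨f, hf⟩⟩, k⟩ ⟨⟨⟨⟨e', he'⟩, he1'⟩, ⟨f', hf'⟩⟩, k'⟩ h
  simp only [Prod.mk.injEq, Subtype.mk.injEq] at h
  obtain ⟨ha, hb⟩ := h
  have hk : k = k' := by
    have h1 : ∀ (c c' : NB M), c = c' → (κ c)⁻¹ * k = (κ c')⁻¹ * k' → k = k' := by
      rintro c _ rfl h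
      exact mul_left_cancel h
    exact h1 _ _ (Subtype.ext ha) hb
  subst hk
  have h1 : e * f = e' * f' := by
    have := mul_right_cancel ha
    exact mul_left_cancel this
  have h2 : e'⁻¹ * e = f' * f⁻¹ := by
    rw [inv_mul_eq_iff_eq_mul, ← mul_assoc, ← h1]
    group
  have h3 : e'⁻¹ * e = 1 := hdis d hd _ (mul_mem (inv_mem he') he)
    (by rw [h2]; exact mul_mem hf' (inv_mem hf))
  have h4 : e = e' := (inv_mul_eq_one.mp h3).symm
  subst h4
  have h5 : f = f' := mul_left_cancel h1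
  subst h5
  rfl

include hG hodd hNA in
/-- (6.4) -/
theorem neg_card {M : Subgroup G} {p : ℕ} [Fact p.Prime] (P : Sylow p G)
    (hP : (P : Subgroup G) ≠ ⊥) (hPM : normalizer (P : Set G) = M)
    (h : ¬ ∀ m ∈ M, (∀ x ∈ FM M, m * x = x * m) → m ∈ FM M)
    {n : ℕ} (hbig : ∀ q : ℕ, q.Prime → q ∣ Nat.card G → n < q) :
    n * (Nat.card (FM M) - 1) * Nat.card G ≤ Nat.card (NB M) * Nat.card M := by
  have hMt : M < ⊤ := hPM ▸ normalizer_lt_top hG hNA P hP
  obtain ⟨d, hd⟩ := exists_NE h (FM_hall hG hNA hMt)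
  have h1 := hbig _ hd.pri (orderOf_dvd_natCard d)
  refine le_trans ?_ (NB_card hG hodd hNA P hP hPM hd)
  gcongr
  · omega
  · omega

end H1FT
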