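import Mathlib

/-!
Counting lemmas for section 5 (cliques) of the bounded rank local analysis.
-/

namespace H1FT

open scoped Classical in
/-- The union of the conjugates of a set `W` all of whose members centralise `Z`, and which
meets each of its conjugates by elements outside `Z` trivially, has size `|G| |W| / |Z|`. -/
theorem ti_card {G : Type*} [Group G] (Z : Subgroup G) (W : Set G)
    (h1 : ∀ w ∈ W, ∀ z ∈ Z, z * w = w * z)
    (h2 : ∀ w ∈ W, ∀ g : G, g * w * g⁻¹ ∈ W → g ∈ Z) :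
    Nat.card {g : G | ∃ w ∈ W, ∃ k : G, g = k * w * k⁻¹} * Nat.card Z =
      Nat.card G * Nat.card W := by
  rw [← Nat.card_prod, ← Nat.card_prod]
  have key : ∀ c : {g : G | ∃ w ∈ W, ∃ k : G, g = k * w * k⁻¹}, ∃ w ∈ W, ∃ k : G,
      (c : G) = k * w * k⁻¹ := fun c => c.2
  choose w hw k hk using key
  refine Nat.card_congr (Equiv.ofBijective
    (fun p : {g : G | ∃ w ∈ W, ∃ k : G, g = k * w * k⁻¹} × Z =>
      ((k p.1 * (p.2 : G), ⟨w p.1, hw p.1⟩) : G × W)) ⟨?_, ?_⟩)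
  · rintro ⟨c, z⟩ ⟨c', z'⟩ h
    simp only [Prod.mk.injEq, Subtype.mk.injEq] at h
    obtain ⟨ha, hb⟩ := h
    have e1 : (c : G) = (k c * z) * w c * (k c * z)⁻¹ := by
      have := h1 (w c) (hw c) z z.2
      calc (c : G) = k c * w c * (k c)⁻¹ := hk c
        _ = k c * (w c * z) * (z : G)⁻¹ * (k c)⁻¹ := by group
        _ = k c * (z * w c) * (z : G)⁻¹ * (k c)⁻¹ := by rw [this]
        _ = _ := by group
    have e2 : (c' : G) = (k c' * z') * w c' * (k c' * z')⁻¹ := by
      have := h1 (w c') (hw c') z' z'.2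
      calc (c' : G) = k c' * w c' * (k c')⁻¹ := hk c'
        _ = k c' * (w c' * z') * (z' : G)⁻¹ * (k c')⁻¹ := by group
        _ = k c' * (z' * w c') * (z' : G)⁻¹ * (k c')⁻¹ := by rw [this]
        _ = _ := by group
    have e3 : c = c' := by
      apply Subtype.ext
      rw [e1, e2, ha, hb]
    subst e3
    have e4 : z = z' := Subtype.ext (mul_left_cancel ha)
    rw [e4]
  · rintro ⟨g, v, hv⟩
    let c : {g : G | ∃ w ∈ W, ∃ k : G, g = k * w * k⁻¹} := ⟨g * v * g⁻¹, v, hv, g, rfl⟩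
    have hc : g * v * g⁻¹ = k c * w c * (k c)⁻¹ := hk c
    have e1 : ((k c)⁻¹ * g) * v * ((k c)⁻¹ * g)⁻¹ = w c := by
      calc ((k c)⁻¹ * g) * v * ((k c)⁻¹ * g)⁻¹ = (k c)⁻¹ * (g * v * g⁻¹) * k c := by group
        _ = (k c)⁻¹ * (k c * w c * (k c)⁻¹) * k c := by rw [hc]
        _ = w c := by group
    have e2 : (k c)⁻¹ * g ∈ Z := h2 v hv _ (by rw [e1]; exact hw c)
    have e3 : w c = v := by
      rw [← e1, h1 v hv _ e2]
      group
    refine ⟨(c, ⟨(k c)⁻¹ * g, e2⟩), ?_⟩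
    simp [e3]

open scoped Classical in
/-- Inclusion-exclusion for a family of subgroups meeting pairwise trivially. -/
theorem union_card {G : Type*} [Group G] [Finite G] (Z : Subgroup G) (I : Finset (Subgroup G))
    (hI : I.Nonempty) (hK : ∀ K ∈ I, K ≤ Z)
    (hd : ∀ K ∈ I, ∀ K' ∈ I, K ≠ K' → K ⊓ K' = ⊥) :
    (Nat.card {g : G | g ∈ Z ∧ ∀ K ∈ I, g ∉ K} : ℤ) =
      (Nat.card Z : ℤ) - 1 - ∑ K ∈ I, ((Nat.card K : ℤ) - 1) := by
  have := Fintype.ofFinite G
  have cS : ∀ K : Subgroup G, Nat.card K = (Finset.univ.filter (fun g : G => g ∈ K)).card := by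
    intro K
    rw [Nat.card_eq_fintype_card, Fintype.card_subtype]
  have cW : Nat.card {g : G | g ∈ Z ∧ ∀ K ∈ I, g ∉ K} =
      (Finset.univ.filter (fun g : G => g ∈ Z ∧ ∀ K ∈ I, g ∉ K)).card := by
    exact (Nat.card_congr (Equiv.subtypeEquivRight (fun g => by simp))).trans
      ((Nat.card_eq_fintype_card (α := {g : G // g ∈ Z ∧ ∀ K ∈ I, g ∉ K})).trans
        (Fintype.card_subtype _))
  have cK : ∀ K : Subgroup G, ((Finset.univ.filter (fun g : G => g ∈ K)).erase 1).card + 1 =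
      Nat.card K := by
    intro K
    rw [cS K]
    exact Finset.card_erase_add_one (by simp [K.one_mem])
  have hdisj : Set.PairwiseDisjoint (I : Set (Subgroup G))
      (fun K : Subgroup G => (Finset.univ.filter (fun g : G => g ∈ K)).erase 1) := by
    intro K hKI K' hKI' hne
    rw [Function.onFun, Finset.disjoint_left]
    intro g hg hg'
    simp only [Finset.mem_erase, Finset.mem_filter, Finset.mem_univ, true_and] at hg hg'
    have : g ∈ K ⊓ K' := ⟨hg.2, hg'.2⟩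
    rw [hd K hKI K' hKI' hne, Subgroup.mem_bot] at this
    exact hg.1 this
  have hbU : (I.biUnion (fun K : Subgroup G =>
      (Finset.univ.filter (fun g : G => g ∈ K)).erase 1)).card =
      ∑ K ∈ I, ((Finset.univ.filter (fun g : G => g ∈ K)).erase 1).card :=
    Finset.card_biUnion hdisj
  have hsplit : (Finset.univ.filter (fun g : G => g ∈ Z)).erase 1 =
      (I.biUnion (fun K : Subgroup G => (Finset.univ.filter (fun g : G => g ∈ K)).erase 1)) ∪
      (Finset.univ.filter (fun g : G => g ∈ Z ∧ ∀ K ∈ I, g ∉ K)) := by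
    ext g
    simp only [Finset.mem_erase, Finset.mem_filter, Finset.mem_univ, true_and, Finset.mem_union,
      Finset.mem_biUnion]
    constructor
    · rintro ⟨h1, h2⟩
      by_cases h : ∃ K ∈ I, g ∈ K
      · obtain ⟨K, hKI, hg⟩ := h
        exact Or.inl ⟨K, hKI, h1, hg⟩
      · push Not at h
        exact Or.inr ⟨h2, h⟩
    · rintro (⟨K, hKI, h1, hg⟩ | ⟨h2, h⟩)
      · exact ⟨h1, hK K hKI hg⟩
      · refine ⟨?_, h2⟩
        rintro rfl
        obtain ⟨K, hKI⟩ := hI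
        exact h K hKI K.one_mem
  have hdj : Disjoint
      (I.biUnion (fun K : Subgroup G => (Finset.univ.filter (fun g : G => g ∈ K)).erase 1))
      (Finset.univ.filter (fun g : G => g ∈ Z ∧ ∀ K ∈ I, g ∉ K)) := by
    rw [Finset.disjoint_left]
    intro g hg hg'
    simp only [Finset.mem_erase, Finset.mem_filter, Finset.mem_univ, true_and,
      Finset.mem_biUnion] at hg hg'
    obtain ⟨K, hKI, h1, hgK⟩ := hg
    exact hg'.2 K hKI hgK
  have hcard := congrArg Finset.card hsplit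
  rw [Finset.card_union_of_disjoint hdj, hbU, ← cW] at hcard
  have hZ := cK Z
  have hsum : ∑ K ∈ I, ((Nat.card K : ℤ) - 1) =
      ((∑ K ∈ I, ((Finset.univ.filter (fun g : G => g ∈ K)).erase 1).card : ℕ) : ℤ) := by
    rw [Nat.cast_sum]
    refine Finset.sum_congr rfl (fun K _ => ?_)
    rw [← cK K]
    push_cast
    ring
  rw [hsum, ← hZ, hcard]
  push_cast
  ring

/-- The numerical contradiction: a clique with at least two members would cover the group. -/
theorem clique_num {ι : Type*} (I : Finset ι) (hI : 2 ≤ I.card) (f k m A : ι → ℕ)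
    (z g w C : ℕ) (hz : 0 < z) (hk : ∀ a ∈ I, 0 < k a)
    (hkf : ∀ a ∈ I, 2 * k a ≤ f a)
    (hm : ∀ a ∈ I, m a * k a = f a * z)
    (hA : ∀ a ∈ I, A a * m a = g * (f a - 1))
    (hC : C * z = g * w)
    (hw : (w : ℤ) = (z : ℤ) - 1 - ∑ a ∈ I, ((k a : ℤ) - 1))
    (hlt : ∑ a ∈ I, A a + C < g) : False := by
  have h1 : ∀ a ∈ I, (g : ℤ) * (2 * ((k a : ℤ) - 1) + 1) ≤ 2 * (A a : ℤ) * z := by
    intro a ha
    have hf : 2 * k a ≤ f a := hkf a ha
    have hk0 : 0 < k a := hk a ha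
    have hf0 : 0 < f a := by omega
    have e1 : ((m a : ℤ)) * k a = f a * z := by exact_mod_cast hm a ha
    have e2 : ((A a : ℤ)) * m a = g * ((f a : ℤ) - 1) := by
      have := hA a ha
      have h' : (((f a - 1 : ℕ)) : ℤ) = (f a : ℤ) - 1 := by
        rw [Nat.cast_sub (by omega)]; simp
      rw [← h']
      exact_mod_cast this
    have hfz : (0 : ℤ) < f a := by exact_mod_cast hf0
    have hg0 : (0 : ℤ) ≤ g := by positivity
    have hf2 : (2 : ℤ) * k a ≤ f a := by exact_mod_cast hf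
    have e3 : (2 * (A a : ℤ) * z) * f a = 2 * g * ((f a : ℤ) - 1) * k a := by
      calc (2 * (A a : ℤ) * z) * f a = 2 * A a * (f a * z) := by ring
        _ = 2 * A a * (m a * k a) := by rw [e1]
        _ = 2 * ((A a : ℤ) * m a) * k a := by ring
        _ = 2 * (g * ((f a : ℤ) - 1)) * k a := by rw [e2]
        _ = _ := by ring
    have e4 : ((g : ℤ) * (2 * ((k a : ℤ) - 1) + 1)) * f a ≤ (2 * (A a : ℤ) * z) * f a := by
      rw [e3]
      have : 0 ≤ (g : ℤ) * ((f a : ℤ) - 2 * k a) := mul_nonneg hg0 (by linarith)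
      nlinarith [this]
    exact le_of_mul_le_mul_right e4 hfz
  have h2 : (g : ℤ) * (2 * ∑ a ∈ I, ((k a : ℤ) - 1) + (I.card : ℤ)) ≤
      2 * ((∑ a ∈ I, A a : ℕ) : ℤ) * z := by
    have := Finset.sum_le_sum h1
    have e1 : ∑ a ∈ I, (g : ℤ) * (2 * ((k a : ℤ) - 1) + 1) =
        (g : ℤ) * (2 * ∑ a ∈ I, ((k a : ℤ) - 1) + (I.card : ℤ)) := by
      rw [← Finset.mul_sum, Finset.sum_add_distrib, ← Finset.mul_sum]
      simp
    have e2 : ∑ a ∈ I, 2 * (A a : ℤ) * z = 2 * ((∑ a ∈ I, A a : ℕ) : ℤ) * z := by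
      rw [← Finset.sum_mul, ← Finset.mul_sum, Nat.cast_sum]
    rw [e1, e2] at this
    exact this
  have h3 : (C : ℤ) * z = g * w := by exact_mod_cast hC
  have hIc : (2 : ℤ) ≤ (I.card : ℤ) := by exact_mod_cast hI
  have hzz : (0 : ℤ) < z := by exact_mod_cast hz
  have hgl : ((∑ a ∈ I, A a : ℕ) : ℤ) + C < g := by exact_mod_cast hlt
  have hg0 : (0 : ℤ) ≤ g := by positivity
  have h4 : 2 * (((∑ a ∈ I, A a : ℕ) : ℤ) + C) * z < 2 * g * z := by
    have := mul_lt_mul_of_pos_right hgl hzz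
    linarith
  have h5 : 2 * (((∑ a ∈ I, A a : ℕ) : ℤ) + C) * z ≥ 2 * g * z := by
    have e1 : 2 * (((∑ a ∈ I, A a : ℕ) : ℤ) + C) * z =
        2 * ((∑ a ∈ I, A a : ℕ) : ℤ) * z + 2 * (C * z) := by ring
    rw [e1, h3, hw]
    nlinarith [mul_nonneg hg0 (sub_nonneg.mpr hIc)]
  linarith

end H1FT
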